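import Pool.Agent.Helper85_Idx.Stmts

/-!
# MIX: exchange of the non-hole parts
-/

set_option autoImplicit false

namespace Pool.Agent.Idx.H56

open Pool.Agent.Idx

section Basic

variable {T : Type} {Γ : Gram T}

theorem D_append {n : ℕ} {α : List (T ⊕ Γ.N)} {τ : List Γ.F} {φ : List (T ⊕ Γ.N)}
    (h : D Γ n α τ φ) : ∀ {m : ℕ} {β ψ : List (T ⊕ Γ.N)}, D Γ m β τ ψ →
    ∃ k, D Γ k (α ++ β) τ (φ ++ ψ) := by
  induction h with
  | nil τ => intro m β ψ h2; exact ⟨m, h2⟩
  | term t h ih =>
    intro m β ψ h2
    obtain ⟨k, hk⟩ := ih h2
    exact ⟨k, D.term t hk⟩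
  | ret A h ih =>
    intro m β ψ h2
    obtain ⟨k, hk⟩ := ih h2
    exact ⟨k, D.ret A hk⟩
  | r1 hτ hr h h' ih ih' =>
    intro m β ψ h2
    obtain ⟨k, hk⟩ := ih' h2
    have h3 := D.r1 hτ hr h hk
    rw [← List.append_assoc] at h3
    exact ⟨_, h3⟩
  | r2 hτ hr h h' ih ih' =>
    intro m β ψ h2
    obtain ⟨k, hk⟩ := ih' h2
    have h3 := D.r2 hτ hr h hk
    rw [← List.append_assoc] at h3
    exact ⟨_, h3⟩
  | r3 hr h h' ih ih' =>
    intro m β ψ h2
    obtain ⟨k, hk⟩ := ih' h2
    have h3 := D.r3 hr h hk
    rw [← List.append_assoc] at h3
    exact ⟨_, h3⟩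

theorem form_split (c : List (Item Γ)) : ∀ (φ ψ : List (T ⊕ Γ.N)), form c = φ ++ ψ →
    ∃ c1 c2, c = c1 ++ c2 ∧ form c1 = φ ∧ form c2 = ψ := by
  intro φ ψ h
  unfold form at h ⊢
  obtain ⟨c1, c2, h1, h2, h3⟩ := List.map_eq_append_iff.1 h
  exact ⟨c1, c2, h1, h2, h3⟩

theorem flat_append (c c' : List (Item Γ)) : flat (c ++ c') = flat c ++ flat c' := by
  simp [flat]

theorem flat_cons (x : Item Γ) (c : List (Item Γ)) : flat (x :: c) = iword x ++ flat c := by
  simp [flat]

theorem Fill_left {σ : List Γ.F} {c c' : List (Item Γ)} (h : Fill σ (c ++ c')) : Fill σ c :=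
  fun A u b hm => h A u b (List.mem_append_left _ hm)

theorem Fill_right {σ : List Γ.F} {c c' : List (Item Γ)} (h : Fill σ (c ++ c')) : Fill σ c' :=
  fun A u b hm => h A u b (List.mem_append_right _ hm)

theorem D_subst {n : ℕ} {α : List (T ⊕ Γ.N)} {τ : List Γ.F} {φ : List (T ⊕ Γ.N)}
    (h : D Γ n α τ φ) (σ : List Γ.F) : ∀ c : List (Item Γ), form c = φ → Fill σ c →
    ∃ k, D Γ k α (τ ++ σ) ((flat c).map Sum.inl) := by
  induction h with
  | nil τ =>
    intro c hc hf
    have : c = [] := by simpa [form] using hc
    subst this
    exact ⟨0, D.nil _⟩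
  | term t h ih =>
    intro c hc hf
    obtain ⟨x, c0, rfl⟩ : ∃ x c0, c = x :: c0 := by
      cases c with
      | nil => simp [form] at hc
      | cons x c0 => exact ⟨x, c0, rfl⟩
    have hc' : isym x :: form c0 = _ := hc
    rw [List.cons.injEq] at hc'
    obtain ⟨hx, hc0⟩ := hc'
    cases x with
    | inl t' =>
      simp only [isym, Sum.inl.injEq] at hx
      subst hx
      obtain ⟨k, hk⟩ := ih c0 hc0 (fun A u b hm => hf A u b (List.mem_cons_of_mem _ hm))
      refine ⟨k, ?_⟩
      rw [flat_cons]
      exact D.term _ hk
    | inr y => simp [isym] at hx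
  | ret A h ih =>
    intro c hc hf
    obtain ⟨x, c0, rfl⟩ : ∃ x c0, c = x :: c0 := by
      cases c with
      | nil => simp [form] at hc
      | cons x c0 => exact ⟨x, c0, rfl⟩
    have hc' : isym x :: form c0 = _ := hc
    rw [List.cons.injEq] at hc'
    obtain ⟨hx, hc0⟩ := hc'
    cases x with
    | inl t' => simp [isym] at hx
    | inr y =>
      obtain ⟨B, u, b⟩ := y
      simp only [isym, Sum.inr.injEq] at hx
      subst hx
      obtain ⟨k, hk⟩ := ih c0 hc0 (fun A u b hm => hf A u b (List.mem_cons_of_mem _ hm))
      obtain ⟨k', hk'⟩ := hf B u b (List.mem_cons_self ..)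
      obtain ⟨k2, hk2⟩ := D_append hk' hk
      refine ⟨k2, ?_⟩
      rw [flat_cons, List.map_append]
      simpa [iword] using hk2
  | r1 hτ hr h h' ih ih' =>
    intro c hc hf
    obtain ⟨c1, c2, rfl, h1, h2⟩ := form_split c _ _ hc
    obtain ⟨k1, hk1⟩ := ih c1 h1 (Fill_left hf)
    obtain ⟨k2, hk2⟩ := ih' c2 h2 (Fill_right hf)
    rw [flat_append, List.map_append]
    exact ⟨_, D.r1 (by simp [hτ]) hr hk1 hk2⟩
  | r2 hτ hr h h' ih ih' =>
    intro c hc hf
    obtain ⟨c1, c2, rfl, h1, h2⟩ := form_split c _ _ hc
    obtain ⟨k1, hk1⟩ := ih c1 h1 (Fill_left hf)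
    obtain ⟨k2, hk2⟩ := ih' c2 h2 (Fill_right hf)
    rw [flat_append, List.map_append]
    exact ⟨_, D.r2 (by simp [hτ]) hr hk1 hk2⟩
  | r3 hr h h' ih ih' =>
    intro c hc hf
    obtain ⟨c1, c2, rfl, h1, h2⟩ := form_split c _ _ hc
    obtain ⟨k1, hk1⟩ := ih c1 h1 (Fill_left hf)
    obtain ⟨k2, hk2⟩ := ih' c2 h2 (Fill_right hf)
    rw [flat_append, List.map_append]
    exact ⟨_, D.r3 hr hk1 hk2⟩

end Basic

section Mixm

variable {T : Type}

theorem mixm_append : ∀ (b1 : List Bool) (x1 y1 : List T) (b2 : List Bool) (x2 y2 : List T),
    b1.length = x1.length → b1.length = y1.length →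
    mixm (b1 ++ b2) (x1 ++ x2) (y1 ++ y2) = mixm b1 x1 y1 ++ mixm b2 x2 y2 := by
  intro b1
  induction b1 with
  | nil =>
    intro x1 y1 b2 x2 y2 h1 h2
    have : x1 = [] := List.length_eq_zero_iff.1 (by simpa using h1.symm)
    subst this
    have : y1 = [] := List.length_eq_zero_iff.1 (by simpa using h2.symm)
    subst this
    simp [mixm]
  | cons b b1 ih =>
    intro x1 y1 b2 x2 y2 h1 h2
    cases x1 with
    | nil => simp at h1
    | cons x x1 =>
      cases y1 with
      | nil => simp at h2
      | cons y y1 =>
        simp only [List.length_cons, Nat.add_right_cancel_iff] at h1 h2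
        simp only [List.cons_append, mixm, ih x1 y1 b2 x2 y2 h1 h2]

theorem mixm_false : ∀ (x y : List T), x.length = y.length →
    mixm (List.replicate x.length false) x y = x := by
  intro x
  induction x with
  | nil => intro y _; simp [mixm]
  | cons a x ih =>
    intro y h
    cases y with
    | nil => simp at h
    | cons b y =>
      simp only [List.length_cons, Nat.add_right_cancel_iff] at h
      simp [List.replicate_succ, mixm, ih y h]

theorem mixm_true : ∀ (x y : List T), x.length = y.length →
    mixm (List.replicate y.length true) x y = y := by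
  intro x
  induction x with
  | nil =>
    intro y h
    have : y = [] := List.length_eq_zero_iff.1 (by simpa using h.symm)
    subst this
    simp [mixm]
  | cons a x ih =>
    intro y h
    cases y with
    | nil => simp at h
    | cons b y =>
      simp only [List.length_cons, Nat.add_right_cancel_iff] at h
      simp [List.replicate_succ, mixm, ih y h]

end Mixm

section Masks

variable {T : Type} {Γ : Gram T}

theorem mask_cons (x : Item Γ) (c : List (Item Γ)) : mask (x :: c) = imask x ++ mask c := by
  simp [mask]

theorem imask_length (x : Item Γ) : (imask x).length = (iword x).length := by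
  cases x with
  | inl t => simp [imask, iword]
  | inr y => simp [imask, iword]

/-- the mask computed from the types of the holes -/
def mk : ℕ → ℕ → List (ℕ × Γ.N × ℕ) → List Bool
  | s, e, [] => List.replicate (e - s) true
  | s, e, (p, _, l) :: hs => List.replicate (p - s) true ++ List.replicate l false ++ mk (p + l) e hs

/-- type of a hole -/
def ty (x : ℕ × Γ.N × List T) : ℕ × Γ.N × ℕ := (x.1, x.2.1, x.2.2.length)

theorem holes_le (c : List (Item Γ)) : ∀ s, ∀ x ∈ holes s c,
    s ≤ x.1 ∧ x.1 + x.2.2.length ≤ s + (flat c).length := by
  induction c with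
  | nil => intro s x hx; simp [holes] at hx
  | cons y c ih =>
    intro s x hx
    rw [flat_cons, List.length_append]
    rcases y with t | ⟨A, u, b⟩
    · have := ih (s + 1) x (by simpa [holes] using hx)
      simp only [iword, List.length_singleton]
      omega
    · cases b with
      | true =>
        simp only [holes, List.mem_cons] at hx
        simp only [iword]
        rcases hx with rfl | hx
        · simp
        · have := ih _ x hx
          omega
      | false =>
        have := ih (s + u.length) x (by simpa [holes] using hx)
        simp only [iword]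
        omega

theorem mk_shift (hs : List (ℕ × Γ.N × ℕ)) (s n e : ℕ) (h : ∀ x ∈ hs, s + n ≤ x.1)
    (he : s + n ≤ e) :
    mk (Γ := Γ) s e hs = List.replicate n true ++ mk (Γ := Γ) (s + n) e hs := by
  cases hs with
  | nil =>
    rw [mk, mk, ← List.replicate_add]
    congr 1
    omega
  | cons x hs =>
    obtain ⟨p, A, l⟩ := x
    have hp : s + n ≤ p := h _ (List.mem_cons_self ..)
    rw [mk, mk, ← List.append_assoc, ← List.append_assoc, ← List.replicate_add]
    congr 3
    omega

theorem mask_eq_mk (c : List (Item Γ)) : ∀ s,
    mask c = mk (Γ := Γ) s (s + (flat c).length) ((holes s c).map ty) := by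
  induction c with
  | nil => intro s; simp [mask, holes, flat, mk]
  | cons y c ih =>
    intro s
    rw [mask_cons, flat_cons, List.length_append]
    have hge : ∀ n, ∀ x ∈ (holes (s + n) c).map (ty (Γ := Γ)), s + n ≤ x.1 := by
      intro n x hx
      obtain ⟨x', hx', rfl⟩ := List.mem_map.1 hx
      exact (holes_le c _ x' hx').1
    rcases y with t | ⟨A, u, b⟩
    · simp only [imask, iword, List.length_singleton, holes]
      rw [mk_shift _ s 1 _ (hge 1) (by omega), ← Nat.add_assoc, ← ih (s + 1)]
      rfl
    · cases b with
      | true =>
        simp only [imask, iword, holes, List.map_cons, ty, mk, Bool.not_true, Nat.sub_self,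
          List.replicate_zero, List.nil_append]
        rw [← Nat.add_assoc, ← ih (s + u.length)]
      | false =>
        simp only [imask, iword, holes, Bool.not_false]
        rw [mk_shift _ s u.length _ (hge u.length) (by omega), ← Nat.add_assoc,
          ← ih (s + u.length)]

theorem mask_length (c : List (Item Γ)) : (mask c).length = (flat c).length := by
  induction c with
  | nil => simp [mask, flat]
  | cons x c ih => rw [mask_cons, flat_cons, List.length_append, List.length_append, ih,
      imask_length]

/-- plug the word `x` into the holes -/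
def plug : List (Item Γ) → List T → List (Item Γ)
  | [], _ => []
  | Sum.inl t :: c, x => Sum.inl t :: plug c (x.drop 1)
  | Sum.inr (A, u, true) :: c, x => Sum.inr (A, x.take u.length, true) :: plug c (x.drop u.length)
  | Sum.inr (A, u, false) :: c, x => Sum.inr (A, u, false) :: plug c (x.drop u.length)

theorem form_plug (c : List (Item Γ)) : ∀ x, form (plug c x) = form c := by
  induction c with
  | nil => intro x; simp [plug]
  | cons y c ih =>
    intro x
    rcases y with t | ⟨A, u, b⟩
    · have := ih (x.drop 1)
      simp only [form, plug, List.map_cons] at this ⊢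
      rw [this]
    · cases b with
      | true =>
        have := ih (x.drop u.length)
        simp only [form, plug, List.map_cons, isym] at this ⊢
        rw [this]
      | false =>
        have := ih (x.drop u.length)
        simp only [form, plug, List.map_cons, isym] at this ⊢
        rw [this]

theorem flat_plug (c : List (Item Γ)) : ∀ x : List T, x.length = (flat c).length →
    flat (plug c x) = mixm (mask c) x (flat c) := by
  induction c with
  | nil => intro x hx; simp [plug, flat, mask, mixm]
  | cons y c ih =>
    intro x hx
    have h1 : x = x.take (iword y).length ++ x.drop (iword y).length :=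
      (List.take_append_drop _ _).symm
    have h3 : (x.take (iword y).length).length = (iword y).length := by
      rw [List.length_take]
      rw [flat_cons, List.length_append] at hx
      omega
    have h2 : mixm (mask (y :: c)) x (flat (y :: c)) =
        mixm (imask y) (x.take (iword y).length) (iword y) ++
        mixm (mask c) (x.drop (iword y).length) (flat c) := by
      conv_lhs => rw [h1, mask_cons, flat_cons]
      rw [mixm_append]
      · rw [imask_length, h3]
      · rw [imask_length]
    have h4 : (x.drop (iword y).length).length = (flat c).length := by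
      rw [List.length_drop, hx, flat_cons, List.length_append]
      omega
    rw [h2, ← ih _ h4]
    rcases y with t | ⟨A, u, b⟩
    · simp only [plug, flat_cons, iword, imask, List.length_singleton]
      congr 1
      have h5 := mixm_true (x.take 1) [t] (by simpa [iword] using h3)
      simpa using h5.symm
    · cases b with
      | true =>
        simp only [plug, flat_cons, iword, imask, Bool.not_true]
        congr 1
        have h5 := mixm_false (x.take u.length) u (by simpa [iword] using h3)
        simp only [iword] at h3
        rw [h3] at h5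
        exact h5.symm
      | false =>
        simp only [plug, flat_cons, iword, imask, Bool.not_false]
        congr 1
        exact (mixm_true (x.take u.length) u (by simpa [iword] using h3)).symm

theorem plug_false (c : List (Item Γ)) : ∀ x E u, Sum.inr (E, u, false) ∈ plug c x →
    Sum.inr (E, u, false) ∈ c := by
  induction c with
  | nil => intro x E u h; simp [plug] at h
  | cons y c ih =>
    intro x E u h
    rcases y with t | ⟨A, v, b⟩
    · simp only [plug, List.mem_cons, reduceCtorEq, false_or] at h
      exact List.mem_cons_of_mem _ (ih _ _ _ h)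
    · cases b with
      | true =>
        simp only [plug, List.mem_cons, Sum.inr.injEq, Prod.mk.injEq, Bool.false_eq_true,
          and_false, false_or] at h
        exact List.mem_cons_of_mem _ (ih _ _ _ h)
      | false =>
        simp only [plug, List.mem_cons] at h
        rcases h with h | h
        · rw [h]; exact List.mem_cons_self ..
        · exact List.mem_cons_of_mem _ (ih _ _ _ h)

theorem plug_true (c : List (Item Γ)) : ∀ s x E u, Sum.inr (E, u, true) ∈ plug c x →
    ∃ p u', (p, E, u') ∈ holes s c ∧ u = (x.drop (p - s)).take u'.length := by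
  induction c with
  | nil => intro s x E u h; simp [plug] at h
  | cons y c ih =>
    intro s x E u h
    rcases y with t | ⟨A, v, b⟩
    · simp only [plug, List.mem_cons, reduceCtorEq, false_or] at h
      obtain ⟨p, u', hp, hu⟩ := ih (s + 1) _ _ _ h
      refine ⟨p, u', by simpa [holes] using hp, ?_⟩
      have := (holes_le c _ _ hp).1
      rw [hu, List.drop_drop]
      congr 2
      simp only at this
      omega
    · cases b with
      | true =>
        simp only [plug, List.mem_cons, Sum.inr.injEq, Prod.mk.injEq, and_true] at h
        rcases h with ⟨rfl, rfl⟩ | h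
        · exact ⟨s, v, by simp [holes], by simp⟩
        · obtain ⟨p, u', hp, hu⟩ := ih (s + v.length) _ _ _ h
          refine ⟨p, u', by simp [holes, hp], ?_⟩
          have := (holes_le c _ _ hp).1
          rw [hu, List.drop_drop]
          congr 2
          simp only at this
          omega
      | false =>
        simp only [plug, List.mem_cons, Sum.inr.injEq, Prod.mk.injEq, Bool.true_eq_false,
          and_false, false_or] at h
        obtain ⟨p, u', hp, hu⟩ := ih (s + v.length) _ _ _ h
        refine ⟨p, u', by simpa [holes] using hp, ?_⟩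
        have := (holes_le c _ _ hp).1
        rw [hu, List.drop_drop]
        congr 2
        simp only at this
        omega

theorem holes_word (c : List (Item Γ)) : ∀ s p E u, (p, E, u) ∈ holes s c →
    Sum.inr (E, u, true) ∈ c ∧ u = ((flat c).drop (p - s)).take u.length := by
  induction c with
  | nil => intro s p E u h; simp [holes] at h
  | cons y c ih =>
    intro s p E u h
    rw [flat_cons]
    rcases y with t | ⟨A, v, b⟩
    · have h' : (p, E, u) ∈ holes (s + 1) c := by simpa [holes] using h
      obtain ⟨h1, h2⟩ := ih _ _ _ _ h'
      have := (holes_le c _ _ h').1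
      refine ⟨List.mem_cons_of_mem _ h1, ?_⟩
      have h3 : p - s = (iword (Γ := Γ) (Sum.inl t)).length + (p - (s + 1)) := by
        simp only [iword, List.length_singleton]
        simp only at this
        omega
      rw [h3, ← List.drop_drop, List.drop_left]
      exact h2
    · cases b with
      | true =>
        simp only [holes, List.mem_cons, Prod.mk.injEq] at h
        rcases h with ⟨rfl, rfl, rfl⟩ | h
        · refine ⟨List.mem_cons_self .., ?_⟩
          simp [iword]
        · obtain ⟨h1, h2⟩ := ih _ _ _ _ h
          have := (holes_le c _ _ h).1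
          refine ⟨List.mem_cons_of_mem _ h1, ?_⟩
          have h3 : p - s = (iword (Γ := Γ) (Sum.inr (A, v, true))).length +
              (p - (s + v.length)) := by
            simp only [iword]
            simp only at this
            omega
          rw [h3, ← List.drop_drop, List.drop_left]
          exact h2
      | false =>
        have h' : (p, E, u) ∈ holes (s + v.length) c := by simpa [holes] using h
        obtain ⟨h1, h2⟩ := ih _ _ _ _ h'
        have := (holes_le c _ _ h').1
        refine ⟨List.mem_cons_of_mem _ h1, ?_⟩
        have h3 : p - s = (iword (Γ := Γ) (Sum.inr (A, v, false))).length +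
            (p - (s + v.length)) := by
          simp only [iword]
          simp only at this
          omega
        rw [h3, ← List.drop_drop, List.drop_left]
        exact h2

end Masks

theorem val_append {T G : Type} [Group G] (ev : T → G) (x y : List T) :
    val ev (x ++ y) = val ev x * val ev y := by
  simp [val]

/-- replace all words of nonterminal items by words of the right languages and the same value -/
theorem refill {T G : Type} [Group G] (ev : T → G) {Γ : Gram T} (σ : List Γ.F)
    (c : List (Item Γ)) : (∀ E u b, Sum.inr (E, u, b) ∈ c → ∃ u' ∈ Lang Γ E σ,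
      val ev u' = val ev u) →
    ∃ c' : List (Item Γ), form c' = form c ∧ Fill σ c' ∧ val ev (flat c') = val ev (flat c) := by
  induction c with
  | nil => intro _; exact ⟨[], rfl, fun _ _ _ h => by simp at h, rfl⟩
  | cons y c ih =>
    intro h
    obtain ⟨c', h1, h2, h3⟩ := ih (fun E u b hm => h E u b (List.mem_cons_of_mem _ hm))
    rcases y with t | ⟨A, u, b⟩
    · refine ⟨Sum.inl t :: c', ?_, ?_, ?_⟩
      · have : isym (Γ := Γ) (Sum.inl t) :: form c' = isym (Sum.inl t) :: form c := by rw [h1]
        exact this
      · intro E u b hm
        simp only [List.mem_cons, reduceCtorEq, false_or] at hm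
        exact h2 E u b hm
      · rw [flat_cons, flat_cons, val_append, val_append, h3]
    · obtain ⟨u', hu1, hu2⟩ := h A u b (List.mem_cons_self ..)
      refine ⟨Sum.inr (A, u', b) :: c', ?_, ?_, ?_⟩
      · have : isym (Γ := Γ) (Sum.inr (A, u', b)) :: form c' =
            isym (Sum.inr (A, u, b)) :: form c := by rw [h1]; rfl
        exact this
      · intro E v b' hm
        simp only [List.mem_cons, Sum.inr.injEq, Prod.mk.injEq] at hm
        rcases hm with ⟨rfl, rfl, rfl⟩ | hm
        · exact hu1
        · exact h2 E v b' hm
      · rw [flat_cons, flat_cons, val_append, val_append, h3]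
        simp only [iword]
        rw [hu2]

theorem mix : MixStmt := by
  intro T G _ ev Γ A f σ X Z X' Z' c c' hD hF hval hX hc hZ hh hnh
  obtain ⟨n, hD⟩ := hD
  set x : List (Item Γ) := plug c' (flat c) with hx
  have hmask : mask c = mask c' := by
    rw [mask_eq_mk c X.length, mask_eq_mk c' X.length]
    have e1 : (holes X.length c).map ty = (holes X.length c').map ty := by
      rw [hX] at hh ⊢
      exact hh
    rw [e1, hc]
  have hflat : flat x = mixm (mask c) (flat c) (flat c') := by
    rw [hx, hmask]
    exact flat_plug c' (flat c) hc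
  have hitems : ∀ E u b, Sum.inr (E, u, b) ∈ x → ∃ u' ∈ Lang Γ E σ, val ev u' = val ev u := by
    intro E u b hm
    cases b with
    | false => exact hnh E u (plug_false c' _ E u hm)
    | true =>
      obtain ⟨p, u', hp, hu⟩ := plug_true c' X.length _ E u hm
      have h1 : (p, E, u'.length) ∈
          (holes X'.length c').map (fun x => (x.1, x.2.1, x.2.2.length)) := by
        rw [← hX]
        exact List.mem_map.2 ⟨(p, E, u'), hp, rfl⟩
      rw [← hh] at h1
      obtain ⟨⟨p2, E2, u2⟩, h2, h3⟩ := List.mem_map.1 h1
      simp only [Prod.mk.injEq] at h3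
      obtain ⟨rfl, rfl, h4⟩ := h3
      obtain ⟨h5, h6⟩ := holes_word c _ _ _ _ h2
      refine ⟨u2, hF _ _ _ h5, ?_⟩
      rw [hu, ← h4, ← h6]
  obtain ⟨c3, h1, h2, h3⟩ := refill ev σ x hitems
  rw [hx, form_plug] at h1
  obtain ⟨k, hk⟩ := D_subst hD σ c3 h1 h2
  have h4 : val ev (flat c3) = val ev (flat c) := hval _ ⟨k, hk⟩
  have hmix : mixm (fmask X Z c) (X ++ flat c ++ Z) (X' ++ flat c' ++ Z') = X ++ flat x ++ Z := by
    unfold fmask
    rw [mixm_append, mixm_append, mixm_false X X' hX, mixm_false Z Z' hZ, hflat]
    · simp
    · simp [hX]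
    · simp [mask_length]
    · simp [mask_length, hX, hc]
  rw [hmix, val_append, val_append, val_append, val_append, ← h3, h4]

end Pool.Agent.Idx.H56
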