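import Pool.Agent.Helper85_Idx.Stmts

/-!
# TRED: sums over positions in a forest
-/

set_option autoImplicit false

namespace Pool.Agent.Idx.H56

open Pool.Agent.Idx

/-- sum of the letter weight over the letters of a word at the positions (starting at `s`) where
`χ` is true -/
def wsum {T : Type} (ω : T → ℝ) (χ : ℕ → Bool) : ℕ → List T → ℝ
  | _, [] => 0
  | s, t :: w => (if χ s = true then ω t else 0) + wsum ω χ (s + 1) w

theorem wsum_eq {T : Type} (ω : T → ℝ) (χ : ℕ → Bool) (w : List T) : ∀ s : ℕ,
    ∑ j ∈ (Finset.range w.length).filter (fun j => χ (s + j) = true), (w[j]?).elim 0 ω =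
      wsum ω χ s w := by
  induction w with
  | nil => intro s; simp [wsum]
  | cons t w ih =>
    intro s
    rw [Finset.sum_filter, List.length_cons, Finset.sum_range_succ']
    simp only [List.getElem?_cons_succ, List.getElem?_cons_zero, Option.elim_some, add_zero]
    rw [wsum, ← ih (s + 1), Finset.sum_filter, add_comm]
    congr 1
    apply Finset.sum_congr rfl
    intro j _
    have : s + (j + 1) = s + 1 + j := by omega
    rw [this]

theorem wsum_append {T : Type} (ω : T → ℝ) (χ : ℕ → Bool) (w w' : List T) : ∀ s : ℕ,
    wsum ω χ s (w ++ w') = wsum ω χ s w + wsum ω χ (s + w.length) w' := by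
  induction w with
  | nil => intro s; simp [wsum]
  | cons t w ih =>
    intro s
    rw [List.cons_append, wsum, wsum, ih (s + 1), List.length_cons]
    have : s + (w.length + 1) = s + 1 + w.length := by omega
    rw [this]
    ring

theorem wsum_zero {T : Type} (ω : T → ℝ) (χ : ℕ → Bool) (w : List T) (hw : ∀ t ∈ w, ω t = 0) :
    ∀ s : ℕ, wsum ω χ s w = 0 := by
  induction w with
  | nil => intro s; simp [wsum]
  | cons t w ih =>
    intro s
    rw [wsum, ih (fun t ht => hw t (List.mem_cons_of_mem _ ht)), hw t (List.mem_cons_self ..)]
    simp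

theorem wsum_replicate {T : Type} (ω : T → ℝ) (χ : ℕ → Bool) (t : T) (n : ℕ) : ∀ s : ℕ,
    wsum ω χ s (List.replicate n t) =
      (((Finset.Ico s (s + n)).filter (fun j => χ j = true)).card : ℝ) * ω t := by
  induction n with
  | zero => intro s; simp [wsum]
  | succ n ih =>
    intro s
    rw [List.replicate_succ, wsum, ih (s + 1)]
    have h1 : Finset.Ico s (s + (n + 1)) = insert s (Finset.Ico (s + 1) (s + 1 + n)) := by
      ext x
      simp only [Finset.mem_Ico, Finset.mem_insert]
      omega
    have h2 : s ∉ Finset.Ico (s + 1) (s + 1 + n) := by simp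
    rw [h1, Finset.filter_insert]
    by_cases hs : χ s = true
    · rw [if_pos hs, if_pos hs, Finset.card_insert_of_notMem]
      · push_cast; ring
      · intro h; exact h2 (Finset.mem_filter.1 h).1
    · rw [if_neg hs, if_neg hs, zero_add]

variable (S : Setup) {V : Type} {m : ℕ} (h : V → Fin m → Bool)

theorem word_append (a b : List (Seg V S.T)) : word S h (a ++ b) = word S h a ++ word S h b := by
  simp [word]

theorem word_cons (x : Seg V S.T) (b : List (Seg V S.T)) :
    word S h (x :: b) = segw S h x ++ word S h b := by
  simp [word]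

theorem word_nil : word S h ([] : List (Seg V S.T)) = [] := by
  simp [word]

theorem segw_length (x : Seg V S.T) : (segw S h x).length = slen S m x := by
  cases x with
  | pay e b => cases b <;> simp [segw, slen]
  | con u => simp [segw, slen]

theorem start_full (segs : List (Seg V S.T)) :
    start S m segs segs.length = (word S h segs).length := by
  unfold start word
  rw [List.take_length, List.length_flatten, List.map_map]
  congr 1
  apply List.map_congr_left
  intro x _
  exact (segw_length S h x).symm

variable {S}

theorem wsum_pay {S : ZSetup} {V : Type} {m : ℕ} (h : V → Fin m → Bool) (ω : S.T → ℝ)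
    (χ : ℕ → Bool) (h0 : ∀ x, ω (S.pl x) = 0) (h1 : ∀ x, ω (S.ni x) = 0) (s : ℕ) (e : V)
    (b : Bool) : wsum ω χ s (segw S.toSetup h (Seg.pay e b)) = 0 := by
  apply wsum_zero
  intro t ht
  cases b with
  | false =>
    simp only [segw, List.mem_map] at ht
    obtain ⟨x, _, rfl⟩ := ht
    exact h0 x
  | true =>
    simp only [segw, List.mem_reverse, List.mem_map] at ht
    obtain ⟨x, _, rfl⟩ := ht
    exact h1 x

theorem wsum_tree {S : ZSetup} {V : Type} {m : ℕ} (h : V → Fin m → Bool) (ω : S.T → ℝ)
    (χ : ℕ → Bool) (h0 : ∀ x, ω (S.pl x) = 0) (h1 : ∀ x, ω (S.ni x) = 0) (t : BT V) :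
    ∀ s : ℕ, wsum ω χ s (word S.toSetup h (tsegs S.z S.z' t)) =
      (leafPos S m χ s t : ℝ) * ω S.z + (leafNeg S m χ s t : ℝ) * ω S.z' := by
  induction t with
  | leaf e x =>
    intro s
    rw [tsegs, word_cons, word_cons, word_cons, word_nil, wsum_append, wsum_append,
      wsum_append, wsum_pay h ω χ h0 h1, wsum_pay h ω χ h0 h1, segw_length]
    simp only [segw, slen, zw, wsum, zero_add, add_zero, leafPos, leafNeg]
    rw [wsum_replicate]
    by_cases hx : 0 ≤ x
    · simp [if_pos hx]
    · simp [if_neg hx]
  | node e l r ihl ihr =>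
    intro s
    rw [tsegs, word_cons, word_append, word_append, word_cons, word_nil, wsum_append,
      wsum_append, wsum_append, wsum_append, wsum_pay h ω χ h0 h1, wsum_pay h ω χ h0 h1,
      segw_length, ihl, ihr]
    simp only [slen, wsum, zero_add, add_zero, leafPos, leafNeg]
    rw [start_full S.toSetup h]
    push_cast
    ring

theorem tred : TredStmt := by
  intro S V ts m h χ ω h0 h1
  have key : ∀ (ts : List (BT V)) (s : ℕ),
      wsum ω χ s (word S.toSetup h (fsegs S.z S.z' ts)) =
      ∑ i ∈ Finset.range ts.length, ((ts[i]?).elim 0 (fun t =>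
      ((leafPos S m χ (s + start S.toSetup m (fsegs S.z S.z' (ts.take i))
        (fsegs S.z S.z' (ts.take i)).length) t : ℕ) : ℝ) * ω S.z +
      ((leafNeg S m χ (s + start S.toSetup m (fsegs S.z S.z' (ts.take i))
        (fsegs S.z S.z' (ts.take i)).length) t : ℕ) : ℝ) * ω S.z')) := by
    intro ts
    induction ts with
    | nil => intro s; simp [fsegs, word_nil, wsum]
    | cons t ts ih =>
      intro s
      have hf : ∀ us : List (BT V), fsegs S.z S.z' (t :: us) =
          tsegs S.z S.z' t ++ fsegs S.z S.z' us := by
        intro us; simp [fsegs]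
      rw [hf, word_append, wsum_append, wsum_tree h ω χ h0 h1, ih, List.length_cons,
        Finset.sum_range_succ']
      simp only [List.getElem?_cons_succ, List.getElem?_cons_zero, Option.elim_some,
        List.take_succ_cons, List.take_zero]
      rw [add_comm]
      congr 1
      apply Finset.sum_congr rfl
      intro i _
      cases hi : ts[i]? with
      | none => simp
      | some u =>
        simp only [Option.elim_some]
        rw [hf, start_full S.toSetup h, start_full S.toSetup h, word_append,
          List.length_append, add_assoc]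
  have := key ts 0
  rw [← wsum_eq] at this
  simpa using this

end Pool.Agent.Idx.H56
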